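import Pool.Agent.H15.TG.Targets
import Pool.Agent.H2.ST.Basic2

/-!
# Adding homogeneous elements of independent weights (row AI3 of tga_modules)
-/

set_option autoImplicit false

namespace Pool.Agent.H67.TG

open MvPolynomial Pool.Agent.H2.ST Pool.Agent.H15.TG

/-- polynomials in the variables `κ` with coefficients polynomials in the variables `ι` -/
noncomputable def sp (k ι κ : Type) [Field k] :
    MvPolynomial (ι ⊕ κ) k →ₐ[k] MvPolynomial κ (MvPolynomial ι k) :=
  aeval (Sum.elim (fun i => C (X i)) X)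

theorem sp_ev (k B ι κ : Type) [Field k] [CommRing B] [Algebra k B] (y : ι → B) (g : κ → B)
    (P : MvPolynomial (ι ⊕ κ) k) :
    eval₂Hom (aeval y : MvPolynomial ι k →ₐ[k] B).toRingHom g (sp k ι κ P) =
      aeval (Sum.elim y g) P := by
  unfold sp
  induction P using MvPolynomial.induction_on with
  | C a =>
    rw [algHom_C, algHom_C, IsScalarTower.algebraMap_apply k (MvPolynomial ι k)
      (MvPolynomial κ (MvPolynomial ι k)), algebraMap_eq, algebraMap_eq, coe_eval₂Hom, eval₂_C]
    exact algHom_C _ a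
  | add p q hp hq => rw [map_add, map_add, map_add, hp, hq]
  | mul_X p i hp =>
    rw [map_mul, map_mul, map_mul, hp, aeval_X, aeval_X]
    congr 1
    rcases i with i | i
    · rw [Sum.elim_inl, Sum.elim_inl, coe_eval₂Hom, eval₂_C]
      exact aeval_X _ _
    · rw [Sum.elim_inr, Sum.elim_inr, coe_eval₂Hom, eval₂_X]

theorem sp_inj (k ι κ : Type) [Field k] (P : MvPolynomial (ι ⊕ κ) k) (h : sp k ι κ P = 0) :
    P = 0 := by
  have h1 := sp_ev k (MvPolynomial (ι ⊕ κ) k) ι κ (fun i => X (Sum.inl i))
    (fun j => X (Sum.inr j)) P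
  rw [h, map_zero] at h1
  have h2 : Sum.elim (fun i => (X (Sum.inl i) : MvPolynomial (ι ⊕ κ) k))
      (fun j => X (Sum.inr j)) = X := by
    funext s
    rcases s with s | s <;> rfl
  rw [h2, aeval_X_left_apply] at h1
  exact h1.symm

theorem ev_zero {k A Γ ι : Type} [Field k] [CommRing A] [Algebra k A] [AddCommGroup Γ]
    {W : Γ → Submodule k A} (h : Gr W) {y : ι → A} (hy : ∀ i, y i ∈ W 0)
    (R : MvPolynomial ι k) : aeval y R ∈ W 0 := by
  induction R using MvPolynomial.induction_on with
  | C a =>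
    rw [algHom_C]
    exact algebraMap_mem_gr h a
  | add p q hp hq =>
    rw [map_add]
    exact (W 0).add_mem hp hq
  | mul_X p i hp =>
    rw [map_mul, aeval_X]
    have := h.mul 0 0 _ _ hp (hy i)
    rwa [add_zero] at this

/-- adding homogeneous elements of independent weights -/
theorem pf_AI3 : T_AI3 := by
  classical
  intro k A Γ ι κ _ _ _ _ W h J y g χ hJ hJc hy hg hgJ hχ hI P hP
  apply sp_inj
  set Q := sp k ι κ P with hQ
  by_contra hQ0
  have e1 : ∑ n ∈ Q.support, aeval y (Q.coeff n) * ∏ j ∈ n.support, g j ^ n j =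
      aeval (Sum.elim y g) P := by
    rw [← sp_ev k A ι κ y g P, ← hQ, coe_eval₂Hom, eval₂_eq]
    rfl
  set x := aeval (Sum.elim y g) P with hx
  -- the weights
  let wt : (κ →₀ ℕ) → Γ := fun n => ∑ j ∈ n.support, n j • χ j
  have hinj : Function.Injective wt := by
    have h1 : LinearIndependent ℕ χ := hχ.restrict_scalars (by
      intro a b hab
      simpa using hab)
    intro n n' hn
    apply h1
    rw [Finsupp.linearCombination_apply, Finsupp.linearCombination_apply]
    exact hn
  let t : (κ →₀ ℕ) → A := fun n => aeval y (Q.coeff n) * ∏ j ∈ n.support, g j ^ n j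
  have ht : ∀ n, t n ∈ W (wt n) := by
    intro n
    have h1 := h.mul 0 (wt n) _ _ (ev_zero h hy (Q.coeff n))
      (prod_mem_gr h n.support (fun j => n j • χ j) (fun j => g j ^ n j)
        fun j _ => pow_mem_gr h (hg j) (n j))
    rwa [zero_add] at h1
  let c : Γ →₀ A := ∑ n ∈ Q.support, Finsupp.single (wt n) (t n)
  have hc : ∀ n ∈ Q.support, c (wt n) = t n := by
    intro n hn
    simp only [c]
    rw [Finsupp.finsetSum_apply, Finset.sum_eq_single n]
    · rw [Finsupp.single_eq_same]
    · intro n' _ hne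
      rw [Finsupp.single_apply, if_neg fun hh => hne (hinj hh)]
    · intro hh
      exact absurd hn hh
  have hcW : ∀ a, c a ∈ W a := by
    intro a
    simp only [c]
    rw [Finsupp.finsetSum_apply]
    refine (W a).sum_mem fun n _ => ?_
    rw [Finsupp.single_apply]
    split_ifs with hh
    · rw [← hh]
      exact ht n
    · exact (W a).zero_mem
  have hcs : (c.sum fun _ x => x) = x := by
    rw [← e1]
    have h1 : (c.sum fun _ x => x) = Finsupp.liftAddHom (fun _ : Γ => AddMonoidHom.id A) c := rfl
    rw [h1]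
    simp only [c]
    rw [map_sum]
    refine Finset.sum_congr rfl fun n _ => ?_
    rw [Finsupp.liftAddHom_apply_single]
    rfl
  have hcm := cmp_uniq h x c hcW hcs
  -- a monomial of Q
  obtain ⟨n, hn⟩ : Q.support.Nonempty := by
    rw [Finset.nonempty_iff_ne_empty]
    intro hh
    exact hQ0 (MvPolynomial.support_eq_empty.1 hh)
  have h2 : t n ∈ J := by
    rw [← hc n hn, ← hcm]
    exact hJc x hP (wt n)
  have h3 : ∏ j ∈ n.support, g j ^ n j ∉ J := by
    intro hh
    obtain ⟨j, -, hj⟩ := hJ.prod_mem_iff.1 hh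
    exact hgJ j (hJ.mem_of_pow_mem _ hj)
  have h4 : aeval y (Q.coeff n) ∈ J := (hJ.mem_or_mem h2).resolve_right h3
  exact MvPolynomial.mem_support_iff.1 hn (hI _ h4)

end Pool.Agent.H67.TG
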