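import Pool.Agent.H15.TG.Targets
import Pool.Agent.H2.ST.Basic2

/-!
# Exactly two prime factors (row TWA of tga_modules)
-/

set_option autoImplicit false

namespace Pool.Agent.H67.TG

open MvPolynomial Pool.Agent.H2.ST Pool.Agent.H15.TG

/-- the cofactor of a homogeneous divisor of a homogeneous element is homogeneous -/
theorem cofactor_mem {k : Type} [Field k] {m d : ℕ} {W : (Fin d → ℤ) → Submodule k (Pol k m)}
    (h : Gr W) {χ θ : Fin d → ℤ} {ρ g : Pol k m} (hg : ρ * g ∈ W χ) (hρ : ρ ∈ W θ)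
    (h0 : ρ ≠ 0) : g ∈ W (χ - θ) := by
  classical
  refine mem_of_cmp h fun b hb => ?_
  have h1 := cmp_mul_of_mem h hρ g b
  rw [mul_comm g ρ, cmp_of_mem h hg, Finsupp.single_apply, if_neg] at h1
  · exact (mul_eq_zero.1 h1.symm).resolve_right h0
  · intro hh
    apply hb
    rw [hh, add_sub_cancel_right]

theorem pos_totalDegree {k : Type} [Field k] {m : ℕ} {ρ : Pol k m} (h : Prime ρ) :
    0 < ρ.totalDegree := by
  rw [Nat.pos_iff_ne_zero]
  intro hh
  rw [totalDegree_eq_zero_iff_eq_C] at hh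
  apply h.not_isUnit
  rw [hh]
  refine (isUnit_iff_ne_zero.2 fun h0 => h.ne_zero ?_).map C
  rw [hh, h0, map_zero]

/-- exactly two prime factors -/
theorem pf_TWA (hLZC : T_LZC) (hLZT : T_LZT) (hFAX : T_FAX) (hCFC : T_CFC) (hCOC : T_COC) :
    T_TWA := by
  intro k _ _ _ m d W K H f hG ψ π x y hψ hπ hπC hπW hx hy hy0
  have hGr : Gr W := hG.toGr
  obtain ⟨hx0, hxC, hxW, ⟨x', hx'⟩, hxg⟩ := id hx
  have hx'0 : x' ≠ 0 := by
    rintro rfl
    rw [mul_zero] at hx'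
    exact hx0 hx'
  have hx'C : x' ∈ Cf K f := (hCFC k m d W K H f hG.toFd π x' (hx' ▸ hx0) (hx' ▸ hxC)).2
  have hx'W : x' ∈ W (-ψ) := by
    have := cofactor_mem hGr (hx' ▸ hxW) hπW hπ.ne_zero
    rwa [zero_sub] at this
  have hx'u : ¬ IsUnit x' := by
    intro hu
    have h1 : x' ∈ W 0 := by
      obtain ⟨c, -, hc⟩ := MvPolynomial.isUnit_iff_eq_C_of_isReduced.1 hu
      rw [hc]
      exact algebraMap_mem_gr hGr c
    have h2 := wt_uniq hGr hx'W h1 hx'0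
    exact hψ (neg_eq_zero.1 h2)
  by_cases hp : Prime x'
  · exact ⟨x', hp, hx'C, hx'W, hx'⟩
  exfalso
  obtain ⟨π', hπ'i, c, hc⟩ := WfDvdMonoid.exists_irreducible_factor hx'u hx'0
  have hπ' : Prime π' := hπ'i.prime
  have hcu : ¬ IsUnit c := by
    intro hu
    apply hp
    exact (associated_mul_unit_right π' c hu).prime (p := π') hπ' |> fun h => by rwa [hc]
  -- three prime factors for every prime divisor
  have h3 : ∀ ρ : Pol k m, Prime ρ → ρ ∣ x → ∃ ρ' c', Prime ρ' ∧ ¬ IsUnit c' ∧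
      x = ρ * ρ' * c' := by
    intro ρ hρ hρx
    have key : ∀ τ υ : Pol k m, Prime τ → ρ ∣ τ → ∃ u : Pol k m, IsUnit u ∧ τ = ρ * u := by
      intro τ _ hτ hd
      obtain ⟨u, hu⟩ := (hρ.dvd_prime_iff_associated hτ).1 hd
      exact ⟨u, u.isUnit, hu.symm⟩
    rw [hx', hc] at hρx
    rcases hρ.dvd_or_dvd hρx with hd | hd
    · obtain ⟨u, hu, hu'⟩ := key π 0 hπ hd
      refine ⟨π', u * c, hπ', fun hh => hcu (isUnit_of_mul_isUnit_right hh), ?_⟩
      rw [hx', hc, hu']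
      ring
    · rcases hρ.dvd_or_dvd hd with hd | hd
      · obtain ⟨u, hu, hu'⟩ := key π' 0 hπ' hd
        refine ⟨π, u * c, hπ, fun hh => hcu (isUnit_of_mul_isUnit_right hh), ?_⟩
        rw [hx', hc, hu']
        ring
      · obtain ⟨c'', hc''⟩ := hd
        refine ⟨π, π' * c'', hπ, fun hh => hπ'.not_isUnit (isUnit_of_mul_isUnit_left hh), ?_⟩
        rw [hx', hc, hc'']
        ring
  have h4 : ∀ ρ : Pol k m, Prime ρ → ρ ∣ x → ρ ∈ Cf K f ∧ ∃ θ : Fin d → ℤ, ρ ∈ W θ ∧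
      ∑ j, ((θ j : ℤ) : k) • y j = 0 := by
    intro ρ hρ hρx
    obtain ⟨hρC, θ, hθ, hρW, hρS⟩ := hFAX k m d W K H f hG ψ π x ρ hψ hπ hπC hπW hx hρ hρx
    obtain ⟨ρ', c', hρ', hc', he⟩ := h3 ρ hρ hρx
    exact ⟨hρC, θ, hρW, hLZT k m d W K H f hG θ ρ ρ' c' x y hθ hρ hρC hρW hρS hy he hρ' hc'⟩
  have h5 : ∀ (n : ℕ) (χ : Fin d → ℤ) (g : Pol k m), g.totalDegree ≤ n → g ∈ Cf K f → g ∈ W χ →
      g ≠ 0 → ∑ j, ((χ j : ℤ) : k) • y j = 0 := by
    intro n
    induction n with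
    | zero =>
      intro χ g hn hgC hgW hg0
      refine hLZC k m d W K H f hG ψ π x y hψ hπ hπC hπW hx hy χ g hgC hgW hg0 ?_
      rintro ρ hρ - ⟨g', rfl⟩
      have h6 := totalDegree_mul_of_isDomain hρ.ne_zero (right_ne_zero_of_mul hg0)
      have := pos_totalDegree hρ
      omega
    | succ n ih =>
      intro χ g hn hgC hgW hg0
      by_cases hex : ∃ ρ : Pol k m, Prime ρ ∧ ρ ∣ x ∧ ρ ∣ g
      · obtain ⟨ρ, hρ, hρx, g', rfl⟩ := hex
        obtain ⟨hρC, θ, hρW, hL⟩ := h4 ρ hρ hρx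
        have hg'0 := right_ne_zero_of_mul hg0
        have h6 := totalDegree_mul_of_isDomain hρ.ne_zero hg'0
        have h7 := pos_totalDegree hρ
        have h8 := ih (χ - θ) g' (by omega) (hCFC k m d W K H f hG.toFd ρ g' hg0 hgC).2
          (cofactor_mem hGr hgW hρW hρ.ne_zero) hg'0
        have h9 : ∑ j, ((χ j : ℤ) : k) • y j =
            ∑ j, (((χ - θ) j : ℤ) : k) • y j + ∑ j, ((θ j : ℤ) : k) • y j := by
          rw [← Finset.sum_add_distrib]
          refine Finset.sum_congr rfl fun j _ => ?_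
          rw [← add_smul, Pi.sub_apply, Int.cast_sub, sub_add_cancel]
        rw [h9, h8, hL, add_zero]
      · refine hLZC k m d W K H f hG ψ π x y hψ hπ hπC hπW hx hy χ g hgC hgW hg0 ?_
        intro ρ hρ hρx hρg
        exact hex ⟨ρ, hρ, hρx, hρg⟩
  obtain ⟨j0, hj0⟩ := hy0
  apply hj0
  ext α
  have h6 := hG.sp (fun j => coeff α (y j)) (by
    intro χ hχ
    obtain ⟨g, hgC, hgW, hg0⟩ := hCOC k m d W K H f hG.toFd χ hχ
    have h7 := h5 _ χ g le_rfl hgC hgW hg0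
    have h8 := congrArg (coeff α) h7
    rw [coeff_sum, coeff_zero] at h8
    rw [← h8]
    refine Finset.sum_congr rfl fun j _ => ?_
    rw [coeff_smul, smul_eq_mul, mul_comm])
  rw [coeff_zero]
  exact congrFun h6 j0

end Pool.Agent.H67.TG
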